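import Mathlib

set_option autoImplicit false

namespace Pool.Agent.Results.MP_f85992_lc.Counter

open Matrix

/-- `G` is a linear `(t_1,…,t_k)`-PIR code: the encoder is one-to-one and data symbol `j` has `t j` pairwise
disjoint recovery sets (the restriction of a codeword to the set determines the symbol) -/
def IsPIR {F : Type} [Field F] {k n : ℕ} (G : Matrix (Fin k) (Fin n) F) (t : Fin k → ℕ) : Prop :=
  Function.Injective (fun a : Fin k → F => a ᵥ* G) ∧
    ∀ j, ∃ I : Fin (t j) → Finset (Fin n), (∀ r s, r ≠ s → Disjoint (I r) (I s)) ∧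
      ∀ s (a b : Fin k → F), (∀ i ∈ I s, (a ᵥ* G) i = (b ᵥ* G) i) → a j = b j

def G5 : Matrix (Fin 5) (Fin 14) (ZMod 2) :=
  !![0, 0, 0, 0, 0, 0, 0, 1, 1, 1, 1, 1, 1, 1;
    0, 0, 1, 0, 1, 0, 1, 0, 0, 1, 0, 1, 0, 1;
    0, 1, 1, 0, 0, 1, 1, 0, 1, 1, 0, 0, 1, 1;
    0, 0, 0, 1, 1, 1, 1, 0, 0, 0, 1, 1, 1, 1;
    1, 1, 1, 1, 1, 1, 1, 1, 1, 1, 1, 1, 1, 1]

lemma rec5 (j : Fin 5) (I : Finset (Fin 14)) (h : ∀ a : Fin 5 → ZMod 2, ∑ i ∈ I, (a ᵥ* G5) i = a j)
    (a b : Fin 5 → ZMod 2) (e : ∀ i ∈ I, (a ᵥ* G5) i = (b ᵥ* G5) i) : a j = b j := by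
  rw [← h a, ← h b]; exact Finset.sum_congr rfl e

lemma ex : IsPIR G5 ![7, 5, 5, 5, 5] := by
  have H : ∀ j : Fin 5, ∃ I : Fin (![7, 5, 5, 5, 5] j) → Finset (Fin 14),
      (∀ r s, r ≠ s → Disjoint (I r) (I s)) ∧ ∀ s (a : Fin 5 → ZMod 2), ∑ i ∈ I s, (a ᵥ* G5) i = a j := by
    intro j
    fin_cases j
    · exact ⟨![{0, 7}, {1, 8}, {2, 9}, {3, 10}, {4, 11}, {5, 12}, {6, 13}], by decide +kernel, by decide +kernel⟩
    · exact ⟨![{1, 2}, {3, 4}, {5, 6}, {8, 9}, {10, 11}], by decide +kernel, by decide +kernel⟩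
    · exact ⟨![{0, 1}, {3, 5}, {4, 6}, {7, 8}, {10, 12}], by decide +kernel, by decide +kernel⟩
    · exact ⟨![{0, 3}, {1, 5}, {2, 6}, {7, 10}, {8, 12}], by decide +kernel, by decide +kernel⟩
    · exact ⟨![{0}, {1, 3, 5}, {2, 10, 13}, {4, 9, 12}, {6, 8, 11}], by decide +kernel, by decide +kernel⟩
  refine ⟨fun a b e => funext fun j => ?_, fun j => ?_⟩
  · obtain ⟨I, -, h⟩ := H j
    exact rec5 j _ (h ⟨0, by fin_cases j <;> decide⟩) a b fun i _ => congrFun e i
  · obtain ⟨I, d, h⟩ := H j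
    exact ⟨I, d, fun s => rec5 j _ (h s)⟩

def ms : List ℕ :=
  [0, 43690, 52428, 26214, 61680, 23130, 15420, 38550, 65280, 21930, 13260, 39270, 4080, 42330, 49980, 27030]

/-- bit `a` of `msk v` is the scalar product of the vectors with binary codes `a` and `v` -/
def msk (v : ℕ) : ℕ := ms.getD v 0

def w3 : List ℕ → ℕ → ℕ → ℕ → ℕ
  | [], _, _, z => z
  | m :: l, x, y, z => w3 l (x ||| m) (y ||| (x &&& m)) (z ||| (y &&& m))

def w3b : List Bool → Bool → Bool → Bool → Bool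
  | [], _, _, z => z
  | m :: l, x, y, z => w3b l (x || m) (y || (x && m)) (z || (y && m))

lemma w3_bit (a : ℕ) (l : List ℕ) : ∀ x y z, (w3 l x y z).testBit a =
    w3b (l.map fun m => m.testBit a) (x.testBit a) (y.testBit a) (z.testBit a) := by
  induction l with
  | nil => intro x y z; rfl
  | cons m l ih => intro x y z; simp [w3, w3b, ih]

def part (b : ℕ) : List ℕ → ℕ → ℕ → ℕ → Bool
  | [], x, y, z => Nat.beq (Nat.land (Nat.land (Nat.land x y) z) b) b
  | m :: l, x, y, z => part b l (Nat.lor x m) y z || part b l x (Nat.lor y m) z || part b l x y (Nat.lor z m)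

lemma part_of (b : ℕ) (l : List (Fin 3 × ℕ)) : ∀ x y z, (∀ a, b.testBit a →
    (x.testBit a ∨ ∃ p ∈ l, p.1 = 0 ∧ p.2.testBit a) ∧ (y.testBit a ∨ ∃ p ∈ l, p.1 = 1 ∧ p.2.testBit a) ∧
    (z.testBit a ∨ ∃ p ∈ l, p.1 = 2 ∧ p.2.testBit a)) → part b (l.map Prod.snd) x y z = true := by
  induction l with
  | nil =>
    intro x y z h
    simp only [List.map_nil, part, Nat.beq_eq, Nat.land_eq]
    refine Nat.eq_of_testBit_eq fun a => ?_
    have := h a
    cases hb : b.testBit a <;> simp_all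
  | cons p l ih =>
    intro x y z h
    obtain ⟨s, m⟩ := p
    simp only [List.map_cons, part, Bool.or_eq_true, Nat.lor_eq]
    fin_cases s
    · refine .inl (.inl (ih _ _ _ fun a ha => ?_)); have := h a ha; simp_all [or_assoc]
    · refine .inl (.inr (ih _ _ _ fun a ha => ?_)); have := h a ha; simp_all [or_assoc]
    · refine .inr (ih _ _ _ fun a ha => ?_); have := h a ha; simp_all [or_assoc]

def parts (l : List ℕ) : Bool :=
  part 43690 l 0 0 0 && part 52428 l 0 0 0 && part 61680 l 0 0 0 && part 65280 l 0 0 0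

def go : ℕ → List ℕ → ℕ → ℕ → ℕ → List ℕ → Bool
  | 0, _, _, _, z, acc => !(Nat.beq (Nat.land z 65534) 65534) || !parts acc
  | k + 1, t, x, y, z, acc => (Nat.beq k 0 && !(Nat.beq (Nat.land (Nat.lor y z) 65534) 65534)) ||
      t.tails.all fun s => match s with
        | [] => true
        | m :: _ => go k s (Nat.lor x m) (Nat.lor y (Nat.land x m)) (Nat.lor z (Nat.land y m)) (m :: acc)

lemma go_ok (l : List ℕ) : ∀ lo x y z acc, l.Pairwise (· ≤ ·) → (∀ i ∈ l, lo ≤ i ∧ i < 16) →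
    go l.length (ms.drop lo) x y z acc = true → w3 (l.map msk) x y z &&& 65534 = 65534 →
    parts ((l.map msk).reverse ++ acc) = false := by
  induction l with
  | nil => intro lo x y z acc _ _ h e; simpa [go, show z &&& 65534 = 65534 from e] using h
  | cons i l ih =>
    intro lo x y z acc p r h e
    simp only [List.length_cons, go, Bool.or_eq_true, Bool.and_eq_true, Nat.beq_eq, List.length_eq_zero_iff,
      List.all_eq_true, List.mem_tails, Nat.lor_eq, Nat.land_eq] at h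
    rcases h with ⟨rfl, h⟩ | h
    · refine absurd h (by
        have : (y ||| z) &&& 65534 = 65534 := Nat.eq_of_testBit_eq fun a => by
          have := congrArg (·.testBit a) e
          simp only [List.map, w3, Nat.testBit_and, Nat.testBit_or] at this ⊢
          revert this
          cases y.testBit a <;> cases z.testBit a <;> cases (65534 : ℕ).testBit a <;> simp
        simp [this])
    · obtain ⟨a, b⟩ := r i (by simp)
      have d : ms.drop i = msk i :: ms.drop (i + 1) := by interval_cases i <;> rfl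
      have := h _ (List.drop_suffix_drop_left ms a)
      rw [d] at this
      simp only [← d] at this
      simpa using ih i _ _ _ _ p.of_cons (fun j hj => ⟨List.rel_of_pairwise_cons p hj, (r j (by simp [hj])).2⟩) this e

lemma brute : ∀ i < 16, go 6 (ms.drop i) (msk i) 0 0 [msk i] = true := by
  intro i hi
  interval_cases i <;> decide +kernel

def vec (a : ℕ) : Fin 4 → ZMod 2 := fun j => if a.testBit j then 1 else 0

def enc (v : Fin 4 → ZMod 2) : Fin 16 := Fin.ofNat 16 ((v 0).val + 2 * (v 1).val + 4 * (v 2).val + 8 * (v 3).val)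

lemma dot : ∀ a < 16, ∀ v : Fin 4 → ZMod 2, vec a ⬝ᵥ v ≠ 0 → (msk (enc v)).testBit a := by decide +kernel

lemma three : ∀ β : Fin 7 → Bool, ∀ i j k, i ≠ j → i ≠ k → j ≠ k → β i → β j → β k →
    w3b [β 0, β 1, β 2, β 3, β 4, β 5, β 6] false false false = true := by decide +kernel

lemma key (g : Fin 7 → Fin 16) (mono : Monotone g) (h : ∀ j : Fin 4, ∃ f : Fin 7 → Fin 3, ∀ a < 16,
    a.testBit j → ∀ s, ∃ i, f i = s ∧ (msk (g i)).testBit a) : False := by
  have B := go_ok [g 1, g 2, g 3, g 4, g 5, g 6] (g 0) _ _ _ _ (by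
      simp only [List.pairwise_cons, List.mem_cons, List.not_mem_nil, or_false, forall_eq_or_imp, forall_eq,
        Fin.val_fin_le, IsEmpty.forall_iff, implies_true, List.Pairwise.nil, and_true]
      refine ⟨⟨?_, ?_, ?_, ?_, ?_⟩, ⟨?_, ?_, ?_, ?_⟩, ⟨?_, ?_, ?_⟩, ⟨?_, ?_⟩, ?_⟩ <;> exact mono (by decide))
    (by
      simp only [List.mem_cons, List.not_mem_nil, or_false, forall_eq_or_imp, forall_eq, Fin.val_fin_le, Fin.is_lt,
        and_true]
      refine ⟨?_, ?_, ?_, ?_, ?_, ?_⟩ <;> exact mono (by decide)) (brute _ (g 0).2)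
  have P : ∀ (j : Fin 4) (b : ℕ), (∀ a, b.testBit a → a < 16 ∧ a.testBit j) →
      part b [msk (g 6), msk (g 5), msk (g 4), msk (g 3), msk (g 2), msk (g 1), msk (g 0)] 0 0 0 = true := by
    intro j b hb
    obtain ⟨f, hf⟩ := h j
    refine part_of b (List.ofFn fun i => (f i, msk (g i))).reverse 0 0 0 fun a ha => ?_
    have := hf a (hb a ha).1 (hb a ha).2
    have u : ∀ s, ∃ p ∈ (List.ofFn fun i => (f i, msk (g i))).reverse, p.1 = s ∧ p.2.testBit a := fun s => by
      obtain ⟨i, e, t⟩ := this s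
      exact ⟨_, List.mem_reverse.2 (List.mem_ofFn.2 ⟨i, rfl⟩), e, t⟩
    exact ⟨.inr (u 0), .inr (u 1), .inr (u 2)⟩
  have L : ∀ b < 65536, ∀ a, b.testBit a → a < 16 := fun b hb a ha => by
    by_contra c
    rw [Nat.testBit_eq_false_of_lt (hb.trans_le (by
      calc 65536 = 2 ^ 16 := rfl
        _ ≤ 2 ^ a := Nat.pow_le_pow_right two_pos (by omega)))] at ha
    exact Bool.noConfusion ha
  have Q : ∀ (j : Fin 4) (b : ℕ), b < 65536 → (∀ a < 16, b.testBit a → a.testBit j) →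
      ∀ a, b.testBit a → a < 16 ∧ a.testBit j := fun j b hb q a ha => ⟨L b hb a ha, q a (L b hb a ha) ha⟩
  have T : parts [msk (g 6), msk (g 5), msk (g 4), msk (g 3), msk (g 2), msk (g 1), msk (g 0)] = true := by
    rw [parts, P 0 _ (Q 0 _ (by decide) (by decide)), P 1 _ (Q 1 _ (by decide) (by decide)),
      P 2 _ (Q 2 _ (by decide) (by decide)), P 3 _ (Q 3 _ (by decide) (by decide))]
    rfl
  refine Bool.noConfusion (T.symm.trans (B (Nat.eq_of_testBit_eq fun a => ?_)))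
  cases ha : (65534 : ℕ).testBit a
  · simp [ha]
  have a16 := L _ (by decide) a ha
  obtain ⟨j, hj⟩ : ∃ j : Fin 4, a.testBit j := by revert ha; interval_cases a <;> decide
  obtain ⟨f, hf⟩ := h j
  obtain ⟨i0, e0, t0⟩ := hf a a16 hj 0
  obtain ⟨i1, e1, t1⟩ := hf a a16 hj 1
  obtain ⟨i2, e2, t2⟩ := hf a a16 hj 2
  rw [Nat.testBit_and, ha, w3_bit, Bool.and_true]
  have := three (fun i => (msk (g i)).testBit a) i0 i1 i2 (by rintro rfl; simp_all) (by rintro rfl; simp_all)
    (by rintro rfl; simp_all) t0 t1 t2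
  simpa [w3b] using this

theorem result : (∃ G : Matrix (Fin 5) (Fin 14) (ZMod 2), IsPIR G ![7, 5, 5, 5, 5]) ∧
    ¬ ∃ G : Matrix (Fin 4) (Fin 7) (ZMod 2), IsPIR G ![3, 3, 3, 3] := by
  refine ⟨⟨_, ex⟩, fun ⟨G, _, h⟩ => ?_⟩
  let g : Fin 7 → Fin 16 := fun i => enc fun j => G j i
  refine key (g ∘ Tuple.sort g) (Tuple.monotone_sort g) fun j => ?_
  have : ∃ I : Fin 3 → Finset (Fin 7), (∀ r s, r ≠ s → Disjoint (I r) (I s)) ∧
      ∀ s (a b : Fin 4 → ZMod 2), (∀ i ∈ I s, (a ᵥ* G) i = (b ᵥ* G) i) → a j = b j := by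
    have := h j
    fin_cases j <;> exact this
  obtain ⟨I, d, r⟩ := this
  refine ⟨fun i => if Tuple.sort g i ∈ I 0 then 0 else if Tuple.sort g i ∈ I 1 then 1 else 2, fun a a16 hj s => ?_⟩
  have : ∃ i ∈ I s, (vec a ᵥ* G) i ≠ 0 := by
    by_contra c
    push Not at c
    have := r s (vec a) 0 (by simpa using c)
    simp [vec, hj] at this
  obtain ⟨i, hi, ne⟩ := this
  refine ⟨(Tuple.sort g).symm i, ?_, by simpa [g] using dot a a16 _ ne⟩
  have n : ∀ r, r ≠ s → i ∉ I r := fun r e m => Finset.disjoint_left.1 (d r s e) m hi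
  fin_cases s
  · simp_all
  · simp_all
  · simp_all

end Pool.Agent.Results.MP_f85992_lc.Counter
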